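import Mathlib

/-! Derivations of the real field with prescribed values at two algebraically independent
reals. -/

namespace GB

open MvPolynomial

/-- the dual numbers over the reals, as a bare ring -/
def DualR : Type := TrivSqZeroExt ℝ ℝ

noncomputable instance : CommRing DualR := inferInstanceAs (CommRing (TrivSqZeroExt ℝ ℝ))

/-- first component -/
noncomputable def dfst : DualR →+* ℝ := (TrivSqZeroExt.fstHom ℝ ℝ ℝ).toRingHom

/-- second component -/
noncomputable def dsnd : DualR →+ ℝ where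
  toFun x := TrivSqZeroExt.snd (R := ℝ) (M := ℝ) x
  map_zero' := rfl
  map_add' _ _ := rfl

/-- the scalars -/
noncomputable def dinl : ℝ →+* DualR := TrivSqZeroExt.inlHom ℝ ℝ

/-- pairs -/
noncomputable def dmk (a b : ℝ) : DualR := ((a, b) : TrivSqZeroExt ℝ ℝ)

theorem dfst_dmk (a b : ℝ) : dfst (dmk a b) = a := rfl

theorem dsnd_dmk (a b : ℝ) : dsnd (dmk a b) = b := rfl

theorem dfst_dinl (a : ℝ) : dfst (dinl a) = a := rfl

theorem dsnd_mul (x y : DualR) : dsnd (x * y) = dfst x * dsnd y + dfst y * dsnd x := by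
  have := TrivSqZeroExt.snd_mul (R := ℝ) (M := ℝ) x y
  exact this.trans (congrArg₂ (· + ·) rfl (mul_comm (dsnd x) (dfst y)))

theorem dker_sq : (RingHom.ker dfst) ^ 2 = ⊥ := by
  rw [eq_bot_iff, pow_two, Ideal.mul_le]
  intro x hx y hy
  rw [RingHom.mem_ker] at hx hy
  rw [Ideal.mem_bot]
  apply TrivSqZeroExt.ext (R := ℝ) (M := ℝ)
  · have : dfst (x * y) = 0 := by rw [map_mul, hx, zero_mul]
    exact this
  · have : dsnd (x * y) = 0 := by rw [dsnd_mul, hx, hy]; ring
    exact this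

open scoped IntermediateField.algebraAdjoinAdjoin in
theorem exists_derivation (a₁ a₂ : ℝ) (h : AlgebraicIndependent ℚ ![a₁, a₂]) (c₁ c₂ : ℝ) :
    ∃ d : Derivation ℚ ℝ ℝ, d a₁ = c₁ ∧ d a₂ = c₂ := by
  classical
  have hne : a₁ ≠ a₂ := by
    intro heq
    have := h.injective (a₁ := (0 : Fin 2)) (a₂ := 1) (by simpa using heq)
    exact absurd this (by decide)
  obtain ⟨t, ht, hb⟩ := exists_isTranscendenceBasis_superset (R := ℚ) (A := ℝ)
    (s := Set.range ![a₁, a₂]) h.coe_range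
  have h1 : a₁ ∈ t := ht ⟨0, rfl⟩
  have h2 : a₂ ∈ t := ht ⟨1, rfl⟩
  let v : t → ℝ := (↑)
  have hv : AlgebraicIndependent ℚ v := hb.1
  let c : t → ℝ := fun x => if (x : ℝ) = a₁ then c₁ else c₂
  let R₀ := Algebra.adjoin ℚ (Set.range v)
  let ψ : MvPolynomial t ℚ →+* DualR :=
    MvPolynomial.eval₂Hom (dinl.comp (algebraMap ℚ ℝ)) (fun i => dmk (v i) (c i))
  have hψ : ∀ p, dfst (ψ p) = MvPolynomial.aeval v p := by
    intro p
    have : dfst.comp ψ = (MvPolynomial.aeval v).toRingHom := by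
      apply MvPolynomial.ringHom_ext
      · intro r
        simp [ψ]
      · intro i
        simp [ψ, dfst_dmk]
    exact congrArg (fun f => f p) this
  let φ : R₀ →+* DualR := ψ.comp hv.aevalEquiv.symm.toAlgHom.toRingHom
  have hφ : ∀ x : R₀, dfst (φ x) = x := by
    intro x
    have := hψ (hv.aevalEquiv.symm x)
    have h3 : MvPolynomial.aeval v (hv.aevalEquiv.symm x) = (x : ℝ) := by
      have h4 := hv.algebraMap_aevalEquiv (hv.aevalEquiv.symm x)
      rw [AlgEquiv.apply_symm_apply] at h4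
      exact h4.symm
    exact this.trans h3
  have hφv : ∀ i : t, φ ⟨v i, Algebra.subset_adjoin ⟨i, rfl⟩⟩ = dmk (v i) (c i) := by
    intro i
    have h3 : hv.aevalEquiv.symm ⟨v i, Algebra.subset_adjoin ⟨i, rfl⟩⟩ = X i := by
      rw [AlgEquiv.symm_apply_eq]
      apply Subtype.ext
      have := hv.algebraMap_aevalEquiv (X i)
      rw [aeval_X] at this
      exact this.symm
    show ψ (hv.aevalEquiv.symm ⟨v i, Algebra.subset_adjoin ⟨i, rfl⟩⟩) = _
    rw [h3]
    simp [ψ]
  let _ : Algebra R₀ DualR := φ.toAlgebra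
  let g : DualR →ₐ[R₀] ℝ := { dfst with commutes' := hφ }
  have hg : Function.Surjective g := fun x => ⟨dinl x, dfst_dinl x⟩
  have hg' : IsNilpotent (RingHom.ker (g : DualR →+* ℝ)) := ⟨2, dker_sq⟩
  have e1 : Algebra.FormallySmooth R₀ ℝ := by
    have := Algebra.FormallyEtale.of_isLocalization (R := R₀)
      (Rₘ := IntermediateField.adjoin ℚ (Set.range v)) (nonZeroDivisors _)
    have h4 : Algebra.IsAlgebraic (IntermediateField.adjoin ℚ (Set.range v)) ℝ :=
      hb.isAlgebraic_field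
    have := Algebra.FormallyEtale.of_isSeparable (IntermediateField.adjoin ℚ (Set.range v)) ℝ
    exact Algebra.FormallySmooth.comp _ (IntermediateField.adjoin ℚ (Set.range v)) _
  let s : ℝ →ₐ[R₀] DualR := Algebra.FormallySmooth.liftOfSurjective (AlgHom.id R₀ ℝ) g hg hg'
  have hs : ∀ x, dfst (s x) = x := fun x =>
    Algebra.FormallySmooth.liftOfSurjective_apply (AlgHom.id R₀ ℝ) g hg hg' x
  have hsv : ∀ i : t, s (v i) = dmk (v i) (c i) := by
    intro i
    rw [← hφv i]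
    exact s.commutes ⟨v i, Algebra.subset_adjoin ⟨i, rfl⟩⟩
  let D₀ : ℝ →+ ℝ := dsnd.comp s.toRingHom.toAddMonoidHom
  have hD₀ : ∀ x, D₀ x = dsnd (s x) := fun x => rfl
  refine ⟨Derivation.mk' D₀.toRatLinearMap ?_, ?_, ?_⟩
  · intro a b
    show D₀ (a * b) = a • D₀ b + b • D₀ a
    rw [hD₀, hD₀, hD₀, map_mul, dsnd_mul, hs, hs]
    rfl
  · show D₀ a₁ = c₁
    rw [hD₀]
    have := hsv ⟨a₁, h1⟩
    rw [show v ⟨a₁, h1⟩ = a₁ from rfl] at this
    rw [this, dsnd_dmk]
    simp [c]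
  · show D₀ a₂ = c₂
    rw [hD₀]
    have := hsv ⟨a₂, h2⟩
    rw [show v ⟨a₂, h2⟩ = a₂ from rfl] at this
    rw [this, dsnd_dmk]
    simp [c, hne.symm]

end GB
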